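import Pool.Agent.NH23.PR.Om

/-!
MP_1b773e_co, Q1 (partial): for every `M` some finite colouring has no monochromatic
`a, b, ab, a^b, a^b b` with `a, b` multiplicatively dependent, or with `a` or `b` a power of an
integer having at most `M` prime factors, or with `a, b` having the same prime factors and `b`
a power of a squarefree integer.
-/

set_option autoImplicit false

namespace Pool.Agent.Results.MP_1b773e_co.DependentPairs

open Pool.NH23.PR

theorem result (M : ℕ) : ∃ (r : ℕ) (c : ℕ → Fin r), ∀ a b : ℕ, 1 < a → 1 < b →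
    ((∃ i j : ℕ, 0 < i ∧ 0 < j ∧ a ^ i = b ^ j) ∨
      (∃ h k : ℕ, ArithmeticFunction.cardFactors h ≤ M ∧ (a = h ^ k ∨ b = h ^ k)) ∨
      (a.primeFactors = b.primeFactors ∧ ∃ s k : ℕ, Squarefree s ∧ b = s ^ k)) →
    ¬ (c b = c a ∧ c (a * b) = c a ∧ c (a ^ b) = c a ∧ c (a ^ b * b) = c a) := by
  obtain ⟨r, c, hc⟩ := kills_dp.or ((kills_Om M).or kills_rad)
  refine ⟨r, c, ?_⟩
  rintro a b ha hb h ⟨h1, h2, h3, h4⟩
  refine hc a b ha hb h1 h2 h3 h4 ?_
  rcases h with h | ⟨x, k, hx, hk⟩ | h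
  · exact Or.inl h
  · right; left
    rcases hk with hk | hk
    · exact Or.inl ⟨x, k, hx, hk⟩
    · exact Or.inr ⟨x, k, hx, hk⟩
  · exact Or.inr (Or.inr h)

end Pool.Agent.Results.MP_1b773e_co.DependentPairs
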