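import Pool.Agent.NH23.PR.Sel

/-!
MP_1b773e_co, Q1 (partial): for every `M` some finite colouring has the property that in each
monochromatic instance one of `a`, `b` is divisible by the `M` smallest and the `M` largest prime
factors of `ab`.
-/

set_option autoImplicit false

namespace Pool.Agent.Results.MP_1b773e_co.ExtremePrimes

open Pool.NH23.PR

theorem result (M : ℕ) : ∃ (r : ℕ) (c : ℕ → Fin r), ∀ a b : ℕ, 1 < a → 1 < b →
    c b = c a → c (a * b) = c a → c (a ^ b) = c a → c (a ^ b * b) = c a →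
    ∀ q ∈ (a * b).primeFactors, ∀ p ∈ (a * b).primeFactors,
      (((a * b).primeFactors.filter (· < q)).card < M ∨
        ((a * b).primeFactors.filter (q < ·)).card < M) →
      (((a * b).primeFactors.filter (· < p)).card < M ∨
        ((a * b).primeFactors.filter (p < ·)).card < M) →
      q ∣ a ∨ p ∣ b := by
  obtain ⟨r, c, hc⟩ := kills_ext M
  refine ⟨r, c, ?_⟩
  intro a b ha hb h1 h2 h3 h4 q hq p hp hq2 hp2
  by_contra hcon
  push Not at hcon
  exact hc a b ha hb h1 h2 h3 h4 ⟨⟨q, ⟨hq, hq2⟩, hcon.1⟩, p, ⟨hp, hp2⟩, hcon.2⟩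

end Pool.Agent.Results.MP_1b773e_co.ExtremePrimes
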