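import Pool.Agent.NH23.PR.Gap

/-!
MP_1b773e_co, Q1 (partial): a 3-colouring without monochromatic instance in which `a` and `b` have
the same least prime factor `p` and the exponent of `p` in `a` is divisible by a power of `p`
exceeding the exponent of `p` in `b`.
-/

set_option autoImplicit false

namespace Pool.Agent.Results.MP_1b773e_co.HighPowers

open Pool.NH23.PR

theorem result : ∃ (r : ℕ) (c : ℕ → Fin r), ∀ a b : ℕ, 1 < a → 1 < b →
    c b = c a → c (a * b) = c a → c (a ^ b) = c a → c (a ^ b * b) = c a →
    ∀ p : ℕ, p = a.minFac → p = b.minFac →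
      p ^ ((a.factorization p).factorization p) ≤ b.factorization p := by
  obtain ⟨r, c, hc⟩ := kills_gap
  refine ⟨r, c, ?_⟩
  rintro a b ha hb h1 h2 h3 h4 p hpa rfl
  by_contra hcon
  push Not at hcon
  exact hc a b ha hb h1 h2 h3 h4 ⟨hpa.symm, hcon⟩

end Pool.Agent.Results.MP_1b773e_co.HighPowers
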